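import Pool.Agent.Helper95.BWD.Main
import Pool.Agent.Helper95.BWD.Union
import Pool.Agent.Helper95.BWD.Real
import Pool.Agent.Helper95.BWD.NoQ
import Pool.Agent.Helper95.BWD.Pseudo
import Pool.Agent.Helper95.BWD.Ladder
import Pool.Agent.Helper95.BWD.Rel
import Pool.Agent.Helper95.BWD.Baum
import Pool.Agent.Helper95.BWD.Jones

/-!
# A small everywhere-dominating family implies the weak diamond for Suslin sets

`Om` is the set of countable ordinals, `F` an everywhere-dominating family of functions `Om → ℕ`.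
`SuslinOver K B`: `B` is the projection of a closed subset of `K^ω × Z` (`K` discrete), for `K = ω` these
are the analytic sets. `cofNum K` is the cofinality of `([K]^{≤ ℵ₁}, ⊆)`.

1. If `#F < 2^ℵ₀` then for every stationary `S` and all `K`-Suslin sets `B_d` of `2^d` there is
   `g : ω₁ → 2` such that for every `h : ω₁ → 2` the set of all `d ∈ S` with
   (`h|d ∈ B_d` iff `g(d) = 1`) is stationary.
2. If `#F < 2^ℵ₁` then this holds for `S = ω₁`.
3. Consequences of `#F < 2^ℵ₁`: the power set of `ω₁` is not coded by reals through Suslin sets; no set of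
   reals of size `ℵ₁` has all its subsets relatively analytic; Baumgartner's axiom fails;
   the pseudo-intersection number is `ℵ₁`; ladder systems do not have the uniformization property;
   closed discrete subsets of separable normal spaces of character `ℵ₁` are countable.

So each of `p > ℵ₁`, a `Q`-set of size `ℵ₁`, Baumgartner's axiom, uniformization of one ladder system
excludes small everywhere-dominating families.
-/

set_option autoImplicit false

open Cardinal Set Topology Pool.Agent.Helper95.BWD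

namespace Pool.Agent.Helper95.Kept.BorelWeakDiamond

/-- **Result.** -/
theorem result :
    -- (1) families with fewer than continuum many members
    (∀ F : Set (Om → ℕ), EverywhereDominating F → #F < 𝔠 →
      ∀ S : Set Om, Stationary S →
        (∀ K : Type, cofNum K < 𝔠 →
          ∀ B : ∀ d : Om, Set (Set.Iio d → Bool), (∀ d, SuslinOver K (B d)) →
            ∃ g : Om → Bool, ∀ h : Om → Bool,
              Stationary {d | d ∈ S ∧ ((fun x : Set.Iio d => h x) ∈ B d ↔ g d = true)}) ∧
        (∀ C : Om → ℕ → Om, (∀ d, (∃ a, a < d) → ∀ n, C d n < d) →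
          ∃ g : Om → Bool, ∀ h : Om → Bool,
            Stationary {d | d ∈ S ∧ ¬ ∀ᶠ n in Filter.atTop, h (C d n) = g d})) ∧
    -- (2) small families
    (∀ F : Set (Om → ℕ), EverywhereDominating F → #F < (2 : Cardinal.{0}) ^ ℵ₁ →
      -- the weak diamond for Suslin sets
      (∀ K : Type, cofNum K < (2 : Cardinal.{0}) ^ ℵ₁ →
        ∀ B : ∀ d : Om, Set (Set.Iio d → Bool), (∀ d, SuslinOver K (B d)) →
          ∃ g : Om → Bool, ∀ h : Om → Bool,
            Stationary {d | (fun x : Set.Iio d => h x) ∈ B d ↔ g d = true}) ∧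
      -- sets of countable ordinals are not coded by reals
      (∀ K : Type, cofNum K < (2 : Cardinal.{0}) ^ ℵ₁ →
        ∀ V : Om → Set (ℕ → Bool), (∀ d, SuslinOver K (V d)) →
          ∃ X : Set Om, ∀ c : ℕ → Bool, Stationary {d | c ∈ V d ↔ d ∈ X}) ∧
      -- no set of size `ℵ₁` has all subsets relatively analytic
      (∀ (Y : Type) [TopologicalSpace Y] [T2Space Y] [SecondCountableTopology Y] (x : Om → Y),
        ∃ X : Set Om, ∀ A : Set Y, MeasureTheory.AnalyticSet A → X ≠ x ⁻¹' A) ∧
      -- the same for sections of analytic relations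
      (∀ (Y Y' : Type) [TopologicalSpace Y] [T2Space Y] [SecondCountableTopology Y]
        [TopologicalSpace Y'] [T2Space Y'] [SecondCountableTopology Y'] (x : Om → Y) (b : Om → Y'),
        ∃ X : Set Om, ∀ G : Set (Y × Y'), MeasureTheory.AnalyticSet G →
          X ≠ {d | ∃ i, (x d, b i) ∈ G}) ∧
      -- two `ℵ₁`-dense sets of reals which are not isomorphic
      (∃ A B : Set ℝ, (∀ a b : ℝ, a < b → #(A ∩ Set.Ioo a b : Set ℝ) = ℵ₁) ∧
        (∀ a b : ℝ, a < b → #(B ∩ Set.Ioo a b : Set ℝ) = ℵ₁) ∧ IsEmpty (A ≃o B)) ∧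
      -- the pseudo-intersection number is `ℵ₁`
      (∃ b : Om → Set ℕ, (∀ s : Finset Om, (⋂ i ∈ s, b i).Infinite) ∧
        ¬ ∃ P : Set ℕ, P.Infinite ∧ ∀ i, (P \ b i).Finite) ∧
      -- no uniformization of ladder systems
      (∀ C : Om → ℕ → Om, (∀ d, (∃ a, a < d) → ∀ n, C d n < d) →
        ∃ g : Om → Bool, ∀ h : Om → Bool,
          Stationary {d | ¬ ∀ᶠ n in Filter.atTop, h (C d n) = g d}) ∧
      -- separable normal spaces of character at most `ℵ₁`
      (∀ (Z : Type) [TopologicalSpace Z] [TopologicalSpace.SeparableSpace Z] [NormalSpace Z],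
        (∀ z : Z, ∃ N : Om → Set Z, (∀ i, N i ∈ 𝓝 z) ∧ ∀ U ∈ 𝓝 z, ∃ i, N i ⊆ U) →
        ∀ D : Set Z, IsClosed D → DiscreteTopology D → D.Countable)) ∧
    -- (3) the range of the theorem
    cofNum ℕ ≤ 1 ∧ cofNum Om ≤ 1 ∧
    (∀ (Z : Type) [TopologicalSpace Z] [T2Space Z] (A : Set Z), MeasureTheory.AnalyticSet A →
      SuslinOver ℕ A) ∧
    (∀ (Z : Type) [TopologicalSpace Z] (A : Om → Set Z), (∀ i, SuslinOver ℕ (A i)) →
      SuslinOver Om (⋃ i, A i)) := by
  have hN : cofNum ℕ ≤ 1 := cofNum_small ℕ (by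
    rw [mk_nat]
    exact aleph0_lt_aleph_one.le)
  have hO : cofNum Om ≤ 1 := cofNum_small Om mk_Om.le
  have h1c : (1 : Cardinal.{0}) < 𝔠 := one_lt_aleph0.trans aleph0_lt_continuum
  have h2c : (1 : Cardinal.{0}) < (2 : Cardinal.{0}) ^ ℵ₁ :=
    one_lt_aleph0.trans (aleph0_lt_aleph_one.trans (cantor ℵ₁))
  refine ⟨?_, ?_, hN, hO, fun Z _ _ A hA => ?_, fun Z _ A hA => union_suslin A hA⟩
  · intro F hF hc S hS
    exact ⟨fun K hK => mainA F hF hc K hK S hS,
      fun C hC => ladder S (mainA F hF hc ℕ (hN.trans_lt h1c) S hS) C hC⟩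
  · intro F hF hc
    have hW : ∀ K : Type, cofNum K < (2 : Cardinal.{0}) ^ ℵ₁ → WDK K Set.univ :=
      fun K hK => mainB F hF hc K hK
    have hWN := hW ℕ (hN.trans_lt h2c)
    have hWO := hW Om (hO.trans_lt h2c)
    have hNN := notOnto ℕ hWN
    have hNO := notOnto Om hWO
    refine ⟨fun K hK B hB => ?_, fun K hK => notOnto K (hW K hK), fun Y _ _ _ x => noQ hNN Y x,
      fun Y Y' _ _ _ _ _ _ x b => relAnalytic hNO Y Y' x b, ?_, pseudo hNN, fun C hC => ?_,
      fun Z _ _ _ hχ D hD hD' => jones hNO Z hχ D hD hD'⟩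
    · obtain ⟨g, hg⟩ := hW K hK B hB
      exact ⟨g, fun h => (hg h).mono fun d hd => hd.2⟩
    · refine baum fun x b => ?_
      obtain ⟨X, hX⟩ := relAnalytic hNO ℝ ℝ x b
      exact ⟨X, fun G hG => hX G hG.analyticSet⟩
    · obtain ⟨g, hg⟩ := ladder Set.univ hWN C hC
      exact ⟨g, fun h => (hg h).mono fun d hd => hd.2⟩
  · obtain ⟨R, hR, h⟩ := analytic_suslin A hA
    exact ⟨R, hR, h⟩

end Pool.Agent.Helper95.Kept.BorelWeakDiamond
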