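import Mathlib
import Pool.Agent.Helper22.ETModel
import Pool.Agent.Helper95.FL.Model
import Pool.Agent.Helper95.FL.Fin

/-!
# Linear decision trees for Exact Triangle: forms in five weights do not suffice

The model (file `Pool/Agent/Helper95/FL/Model.lean`): a randomized algorithm of unlimited computing
power knows all edge flags and its random bits, and asks for signs of affine forms
`b + ∑ a i j * w i j` with integer coefficients; the constant is at most `n ^ 40`, and

* either at most four coefficients are nonzero, all of them at most `n ^ 40` in absolute value
  (this contains the 4-linear decision trees of Fredman, Gronlund and Pettie),
* or the sum of the absolute values of the coefficients is at most five (comparisons of sums of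
  together at most five weights).

Theorem: a bounded-error algorithm on the valid instances needs `n ^ 2 * 2 ^ (√(log n) / 32)`
queries, for all large `n`. With sums of six weights `O(n ^ 2 log ^ 2 n)` queries suffice (Kane,
Lovett, Moran), so six is the exact threshold for `n ^ 2 polylog n` queries.

Idea of the proof. A finite two-dimensional complex is constructed from a group of unitary matrices
over a finite field: every edge lies in `p + 1` triangles, every closed walk of length 3 in the
1-skeleton is a triangle of the complex, every 4-cycle and every 5-cycle has a chord, and the
triangles look like a tree up to a distance of order `log p`, while the whole complex has only
`2 ^ O(log ^ 2 p)` triangles. About `n ^ 2 p / |G|` copies are packed into the complete tripartite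
graph. The weights are generic potentials of the copies (a form in few weights whose value is not
determined by them is a multiple of the form of a triangle, or of two or three neighbouring
triangles) plus a small perturbation. Any single triangle can be changed to weight zero by a
perturbation which is halved in every step along the tree and does not change the sign of any form
that does not involve this triangle. Every query involves at most three triangles.
-/

set_option autoImplicit false

namespace Pool.Agent.Helper95.Kept.FiveWeightThreshold

open Pool.Agent.Helper95.FL

/-- Superquadratic lower bound for randomized linear decision trees with at most four weights
per query, or five weights with coefficients `±1`. -/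
theorem result :
    ∃ n₀ : ℕ, ∀ n : ℕ, n₀ ≤ n → ∀ (D R : ℕ) (A : Alg n D R), A.Admissible 40 → A.Decides →
      (n : ℝ) ^ 2 * 2 ^ (Real.sqrt (Real.logb 2 n) / 32) ≤ D :=
  Pool.Agent.Helper95.FL.final

end Pool.Agent.Helper95.Kept.FiveWeightThreshold
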